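import Pool.Agent.V1193.NN.B

set_option autoImplicit false

/-! Assembly. -/

namespace Pool.Agent.V1193.NN

open Finset Filter Topology MeasureTheory
open Pool.Agent.V1193.FM (Pr WW WW_even amplitudes)
open Pool.Agent.V1193.FS

lemma base_two (k : ℕ) : WW ((2 : ℕ) : ℝ) 1 (idx k) = (2 ^ (2 ^ k)) ^ (2 ^ (2 ^ k)) + 1 := by
  rw [WW_even even_two le_rfl]
  unfold idx
  rw [← pow_mul, ← pow_add]

lemma prime_iff {n : ℕ} (hn : 2 ≤ n) : (n ^ n + 1).Prime ↔
    ∃ k, n = 2 ^ (2 ^ k) ∧ k ∈ NS ((2 : ℕ) : ℝ) 1 := by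
  constructor
  · intro h
    obtain ⟨m, hm⟩ := Nat.pow_of_pow_add_prime (a := n) (n := n) (by omega) (by omega) h
    have hm0 : m ≠ 0 := by
      rintro rfl
      rw [pow_zero] at hm
      omega
    have h2 : (2 ^ (m * 2 ^ m) + 1).Prime := by
      have : n ^ n = 2 ^ (m * 2 ^ m) := by rw [hm, ← pow_mul]
      rwa [← this]
    obtain ⟨j, hj⟩ := Nat.pow_of_pow_add_prime (a := 2) (n := m * 2 ^ m) (by omega)
      (by positivity) h2
    obtain ⟨k, -, hk⟩ := (Nat.dvd_prime_pow Nat.prime_two).1 (Dvd.intro _ hj)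
    refine ⟨k, by rw [hm, hk], ?_⟩
    show (WW ((2 : ℕ) : ℝ) 1 (idx k)).Prime
    rw [base_two, ← hk, ← hm]
    exact h
  · rintro ⟨k, rfl, hk⟩
    have h : (WW ((2 : ℕ) : ℝ) 1 (idx k)).Prime := hk
    rwa [base_two] at h

lemma finite_ae {α : ℝ} (hα : 1 < α) : ∀ᵐ β : ℝ, 0 < β → (NS α β).Finite := by
  filter_upwards [amplitudes hα] with β h hβ
  exact (h hβ).preimage idx_mono.injective.injOn

theorem corr_N {a : ℝ} (ha : 1 < a) {u v : ℝ} (huv : u < v) : ∃ C : ℝ, 0 < C ∧ ∃ k0 : ℕ,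
    ∀ α : ℝ, a ≤ α → ∀ J : Finset ℕ, (∀ k ∈ J, k0 ≤ k) →
      volume.real {y ∈ Set.Ioc u v | ∀ k ∈ J, k ∈ NS α (Real.exp y)} ≤
        (v - u) * ∏ k ∈ J, (C * om k) := by
  obtain ⟨C, hC, M0, h⟩ := combined ha huv
  refine ⟨C, hC, M0, fun α hα J hJ => ?_⟩
  have h1 := (h α hα).1 (J.image idx) (by
    intro m hm
    obtain ⟨k, hk, rfl⟩ := Finset.mem_image.1 hm
    exact (hJ k hk).trans (idx_mono.id_le k))
  rw [Finset.prod_image fun a _ b _ h => idx_mono.injective h] at h1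
  refine le_trans (le_of_eq ?_) h1
  congr 1
  ext y
  simp only [Set.mem_ofPred_eq, Finset.mem_image, forall_exists_index, and_imp,
    forall_apply_eq_imp_iff₂]
  rfl

theorem laws_alpha {α : ℝ} (hα : 1 < α) {u v : ℝ} (huv : u < v) :
    Tendsto (fun k => volume.real {y ∈ Set.Ioc u v | k ∈ NS α (Real.exp y)} / om k)
      atTop (𝓝 (Real.exp Real.eulerMascheroniConstant * Real.log 2 / Real.log α * (v - u))) ∧
    Tendsto (fun k => volume.real {y ∈ Set.Ioc u v | IsGreatest (NS α (Real.exp y)) k} / om k)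
      atTop (𝓝 (Real.exp Real.eulerMascheroniConstant * Real.log 2 / Real.log α * (v - u))) ∧
    Tendsto (fun k => volume.real {y ∈ Set.Ioc u v | ∃ l ∈ NS α (Real.exp y), k ≤ l} / om k)
      atTop (𝓝 (Real.exp Real.eulerMascheroniConstant * Real.log 2 / Real.log α * (v - u))) ∧
    Tendsto (fun k => (∫ y in Set.Ioc u v, ((NS α (Real.exp y) ∩ Set.Ici k).ncard : ℝ)) / om k)
      atTop (𝓝 (Real.exp Real.eulerMascheroniConstant * Real.log 2 / Real.log α * (v - u))) := by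
  obtain ⟨x, hx, rfl⟩ : ∃ x, 0 < x ∧ α = Real.exp x :=
    ⟨Real.log α, Real.log_pos hα, (Real.exp_log (by linarith)).symm⟩
  rw [Real.log_exp]
  exact laws_y hx huv

end Pool.Agent.V1193.NN
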