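import Pool.Agent.V1193.FS.I
import Pool.Agent.V1193.LE.A

set_option autoImplicit false

/-! The Fermat indices `k + 2 ^ k`. -/

namespace Pool.Agent.V1193.NN

open Finset Filter Topology MeasureTheory
open Pool.Agent.V1193.FM (Pr WW final_y)
open Pool.Agent.V1193.LE (T T_nonneg summable_T T_pos T_tendsto average T_anti Last last_law
  mean_eq tail_eq fin)
open Pool.Agent.V1193.FS

/-- the indices -/
def idx (k : ℕ) : ℕ := k + 2 ^ k

lemma idx_mono : StrictMono idx := by
  intro a b h
  unfold idx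
  have := Nat.pow_lt_pow_right (a := 2) (by norm_num) h
  omega

lemma tendsto_idx : Tendsto idx atTop atTop := idx_mono.tendsto_atTop

/-- the weights -/
noncomputable def om (k : ℕ) : ℝ := w (idx k)

lemma om_pos (k : ℕ) : 0 < om k := w_pos _

lemma summable_om : Summable om := summable_w.comp_injective idx_mono.injective

lemma om_ratio : Tendsto (fun k => om (k + 1) / om k) atTop (𝓝 0) := by
  refine squeeze_zero (fun k => (div_pos (om_pos _) (om_pos _)).le) (fun k => ?_)
    (tends0 2 (by norm_num))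
  have hk : (0 : ℝ) < (idx k : ℝ) + 1 := by positivity
  unfold om w
  have e : idx (k + 1) = idx k + (1 + 2 ^ k) := by
    unfold idx; rw [pow_succ]; ring
  have h1 : ((idx (k + 1) : ℕ) : ℝ) + 1 ≤ 2 * ((idx k : ℝ) + 1) := by
    have : idx (k + 1) + 1 ≤ 2 * (idx k + 1) := by
      unfold idx; rw [pow_succ]; omega
    exact_mod_cast this
  have h2 : (2 : ℝ) ^ idx (k + 1) = 2 ^ idx k * (2 * 2 ^ (2 ^ k)) := by
    rw [e, pow_add, pow_add, pow_one]
  have h3 : (2 : ℝ) ^ k ≤ 2 ^ (2 ^ k) :=
    pow_le_pow_right₀ (by norm_num) (Nat.lt_two_pow_self).le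
  rw [h2, div_div_div_eq, div_le_div_iff₀ (by positivity) (by positivity)]
  have h4 : (0 : ℝ) < 2 ^ idx k := by positivity
  have h5 : (0 : ℝ) < 2 ^ k := by positivity
  calc (((idx (k + 1) : ℕ) : ℝ) + 1) * 2 ^ idx k * 2 ^ k
      ≤ (2 * ((idx k : ℝ) + 1)) * 2 ^ idx k * 2 ^ (2 ^ k) := by gcongr
    _ = 1 * (2 ^ idx k * (2 * 2 ^ (2 ^ k)) * ((idx k : ℝ) + 1)) := by ring

/-- the first term dominates the tail -/
lemma T_first {a : ℕ → ℝ} (ha : ∀ n, 0 < a n) (hs : Summable a)
    (hr : Tendsto (fun n => a (n + 1) / a n) atTop (𝓝 0)) :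
    Tendsto (fun n => T a n / a n) atTop (𝓝 1) := by
  have ha0 : ∀ n, 0 ≤ a n := fun n => (ha n).le
  have hT : ∀ n, 0 < T a n := fun n => T_pos ha0 hs (fun n => ⟨n, le_rfl, ha n⟩) n
  have h1 : Tendsto (fun n => T (fun n => a (n + 1)) n / T a n) atTop (𝓝 0) := by
    refine average ha0 hs ((summable_nat_add_iff 1).2 hs) (fun n => ⟨n, le_rfl, ha n⟩) ?_
    intro ε hε
    filter_upwards [hr.eventually_lt_const hε] with n hn
    rw [zero_mul, sub_zero, abs_of_pos (ha _)]
    exact ((div_lt_iff₀ (ha n)).1 hn).le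
  have h2 : ∀ n, T (fun n => a (n + 1)) n = T a n - a n := by
    intro n
    have h3 := (summable_T hs n).sum_add_tsum_nat_add 1
    simp only [Finset.sum_range_one, add_zero] at h3
    have h4 : T (fun n => a (n + 1)) n = ∑' i, a (n + (i + 1)) := by
      unfold T
      refine tsum_congr fun i => ?_
      rfl
    have h5 : T a n = ∑' i, a (n + i) := rfl
    rw [h4, h5]
    linarith
  have h3 : Tendsto (fun n => a n / T a n) atTop (𝓝 1) := by
    have h4 := h1.const_sub 1
    rw [sub_zero] at h4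
    refine h4.congr fun n => ?_
    rw [h2 n]
    have := (hT n).ne'
    field_simp
    ring
  have h4 := h3.inv₀ one_ne_zero
  rw [inv_one] at h4
  refine h4.congr fun n => ?_
  rw [inv_div]

/-- the weights of the second law -/
noncomputable def vv (k : ℕ) : ℝ := om k * T om (k + 1)

lemma T_om : Tendsto (fun n => T om n / om n) atTop (𝓝 1) := T_first om_pos summable_om om_ratio

lemma T_om_pos (n : ℕ) : 0 < T om n :=
  T_pos (fun n => (om_pos n).le) summable_om (fun n => ⟨n, le_rfl, om_pos n⟩) n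

lemma vv_pos (k : ℕ) : 0 < vv k := mul_pos (om_pos k) (T_om_pos _)

lemma vv_law : Tendsto (fun n => vv n / (om n * om (n + 1))) atTop (𝓝 1) := by
  refine (T_om.comp (tendsto_add_atTop_nat 1)).congr fun n => ?_
  simp only [Function.comp]
  unfold vv
  have h1 := (om_pos n).ne'
  have h2 := (om_pos (n + 1)).ne'
  field_simp

lemma summable_vv : Summable vv := by
  refine Summable.of_nonneg_of_le (fun m => (vv_pos m).le) (fun m => ?_)
    (summable_om.mul_right (T om 0))
  exact mul_le_mul_of_nonneg_left (T_anti (fun n => (om_pos n).le) summable_om (Nat.zero_le _))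
    (om_pos m).le

lemma T_vv : Tendsto (fun n => T vv n / (om n * om (n + 1))) atTop (𝓝 1) := by
  have hr : Tendsto (fun n => vv (n + 1) / vv n) atTop (𝓝 0) := by
    -- `vv (n+1) ≤ om (n+1) T om (n+1)`
    refine squeeze_zero (fun k => (div_pos (vv_pos _) (vv_pos _)).le) (fun k => ?_) om_ratio
    unfold vv
    rw [mul_div_mul_comm]
    have h1 : T om (k + 1 + 1) / T om (k + 1) ≤ 1 :=
      (div_le_one (T_om_pos _)).2 (T_anti (fun n => (om_pos n).le) summable_om (by omega))
    have h2 : 0 ≤ om (k + 1) / om k := (div_pos (om_pos _) (om_pos _)).le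
    nlinarith
  have h := (T_first vv_pos summable_vv hr).mul vv_law
  rw [mul_one] at h
  refine h.congr fun n => ?_
  have h1 := (vv_pos n).ne'
  field_simp

end Pool.Agent.V1193.NN
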