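import Pool.Agent.V1193.NN.A

set_option autoImplicit false

/-! Laws for the indices `k + 2 ^ k`. -/

namespace Pool.Agent.V1193.NN

open Finset Filter Topology MeasureTheory
open Pool.Agent.V1193.FM (Pr WW final_y)
open Pool.Agent.V1193.LE (T T_nonneg summable_T T_pos T_tendsto average T_anti Last last_law
  mean_eq tail_eq fin)
open Pool.Agent.V1193.FS
open Pool.Agent.Y122.PC (Bx measurable_Bx vol_Bx)

/-- the indices `k` with a prime value at `k + 2 ^ k` -/
def NS (α β : ℝ) : Set ℕ := {k | idx k ∈ Pr α β}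

/-- a mass law gives a ratio law -/
lemma ratio_of {a b : ℕ → ℝ} {L : ℝ} (hb : ∀ n, 0 < b n)
    (h : ∀ ε > 0, ∀ᶠ n : ℕ in atTop, |a n - L * b n| ≤ ε * b n) :
    Tendsto (fun n => a n / b n) atTop (𝓝 L) := by
  rw [Metric.tendsto_nhds]
  intro ε hε
  filter_upwards [h (ε / 2) (by positivity)] with m hm
  have hpos := hb m
  rw [Real.dist_eq]
  have e : a m / b m - L = (a m - L * b m) / b m := by
    rw [sub_div, mul_div_assoc L, div_self hpos.ne', mul_one]
  rw [e, abs_div, abs_of_pos hpos, div_lt_iff₀ hpos]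
  nlinarith

lemma of_ratio {a b : ℕ → ℝ} {L : ℝ} (hb : ∀ n, 0 < b n)
    (h : Tendsto (fun n => a n / b n) atTop (𝓝 L)) :
    ∀ ε > 0, ∀ᶠ n : ℕ in atTop, |a n - L * b n| ≤ ε * b n := by
  intro ε hε
  filter_upwards [(Metric.tendsto_nhds.1 h) ε hε] with m hm
  have hpos := hb m
  rw [Real.dist_eq] at hm
  have e : a m - L * b m = (a m / b m - L) * b m := by
    field_simp
  rw [e, abs_mul, abs_of_pos hpos]
  exact mul_le_mul_of_nonneg_right hm.le hpos.le

/-- from the tail sums to the first term -/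
lemma first_term {a : ℕ → ℝ} {L : ℝ} (h : Tendsto (fun n => a n / T om n) atTop (𝓝 L)) :
    Tendsto (fun n => a n / om n) atTop (𝓝 L) := by
  have h1 := h.mul T_om
  rw [mul_one] at h1
  refine h1.congr fun n => ?_
  have := (T_om_pos n).ne'
  field_simp

section fixed

variable {x u v : ℝ}

/-- the events for a fixed base -/
def Sy (x : ℝ) (k : ℕ) : Set ℝ := {y | idx k ∈ Q x y}

lemma meas_Sy (x : ℝ) (k : ℕ) : MeasurableSet (Sy x k) := meas_Q x _

lemma real_y (u v : ℝ) (A : Set ℝ) : (volume.restrict (Set.Ioc u v)).real A =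
    volume.real {y | y ∈ Set.Ioc u v ∧ y ∈ A} := by
  rw [measureReal_restrict_apply' measurableSet_Ioc]
  congr 1
  ext y
  exact and_comm

theorem laws_y (hx : 0 < x) (huv : u < v) :
    Tendsto (fun k => volume.real {y ∈ Set.Ioc u v | k ∈ NS (Real.exp x) (Real.exp y)} / om k)
      atTop (𝓝 (Real.exp Real.eulerMascheroniConstant * Real.log 2 / x * (v - u))) ∧
    Tendsto (fun k => volume.real {y ∈ Set.Ioc u v | IsGreatest (NS (Real.exp x) (Real.exp y)) k}
      / om k)
      atTop (𝓝 (Real.exp Real.eulerMascheroniConstant * Real.log 2 / x * (v - u))) ∧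
    Tendsto (fun k => volume.real {y ∈ Set.Ioc u v | ∃ l ∈ NS (Real.exp x) (Real.exp y), k ≤ l}
      / om k)
      atTop (𝓝 (Real.exp Real.eulerMascheroniConstant * Real.log 2 / x * (v - u))) ∧
    Tendsto (fun k => (∫ y in Set.Ioc u v, ((NS (Real.exp x) (Real.exp y) ∩ Set.Ici k).ncard : ℝ))
      / om k)
      atTop (𝓝 (Real.exp Real.eulerMascheroniConstant * Real.log 2 / x * (v - u))) := by
  set L := Real.exp Real.eulerMascheroniConstant * Real.log 2 / x * (v - u) with hL
  set μ := volume.restrict (Set.Ioc u v) with hμ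
  have hα : 1 < Real.exp x := Real.one_lt_exp_iff.2 hx
  have h1 := (final_y hα huv).1
  rw [Real.log_exp] at h1
  have h2 : Tendsto (fun k => μ.real (Sy x k) / om k) atTop (𝓝 L) := by
    refine (h1.comp tendsto_idx).congr fun k => ?_
    simp only [Function.comp]
    rw [hμ, real_y]
    unfold om w
    rw [div_div_eq_mul_div, div_mul_eq_mul_div, mul_comm]
    rfl
  have hom0 : ∀ k, 0 ≤ om k := fun k => (om_pos k).le
  have hq := of_ratio om_pos h2
  obtain ⟨C, hC, M0, hcorr⟩ := corr_set hx huv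
  have hpair : ∀ p ≥ M0, ∀ q > p, μ.real (Sy x p ∩ Sy x q) ≤ ((v - u) * C ^ 2) * om p * om q := by
    intro p hp q hq
    rw [hμ, real_y]
    have h3 := hcorr x le_rfl {idx p, idx q} (by
      intro m hm
      simp only [Finset.mem_insert, Finset.mem_singleton] at hm
      have e1 : p ≤ idx p := idx_mono.id_le p
      have e2 : q ≤ idx q := idx_mono.id_le q
      rcases hm with rfl | rfl <;> omega)
    rw [Finset.prod_pair (idx_mono.injective.ne (by omega))] at h3
    refine le_trans (le_of_eq ?_) (h3.trans (le_of_eq ?_))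
    · congr 1
      ext y
      simp only [Set.mem_ofPred_eq, Finset.mem_insert, Finset.mem_singleton, forall_eq_or_imp,
        forall_eq]
      rfl
    · unfold om; ring
  have hsum : Summable fun k => μ.real (Sy x k) := by
    refine Summable.of_norm_bounded_eventually_nat (g := fun k => (1 + |L|) * om k)
      (summable_om.mul_left _) ?_
    filter_upwards [hq 1 one_pos] with k hk
    rw [Real.norm_of_nonneg measureReal_nonneg]
    have h3 := (abs_le.1 hk).2
    have h4 := hom0 k
    have h5 : L * om k ≤ |L| * om k := mul_le_mul_of_nonneg_right (le_abs_self L) h4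
    nlinarith
  have hK : 0 ≤ (v - u) * C ^ 2 := mul_nonneg (by linarith) (by positivity)
  have hlast := last_law (meas_Sy x) hom0 summable_om hK hq hpair
  have hinf : ∀ n, ∃ p ≥ n, 0 < om p := fun n => ⟨n, le_rfl, om_pos n⟩
  have hsum' : Summable fun m => μ.real (Last (Sy x) m) :=
    Summable.of_nonneg_of_le (fun m => measureReal_nonneg)
      (fun m => measureReal_mono (fun y hy => hy.1)) hsum
  refine ⟨?_, ?_, ?_, ?_⟩
  · refine h2.congr fun k => ?_
    rw [hμ, real_y]
    rfl
  · refine (ratio_of om_pos hlast).congr fun k => ?_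
    rw [hμ, real_y]
    rfl
  · refine (first_term ((average hom0 summable_om hsum' hinf hlast).congr fun n => ?_))
    rw [← tail_eq (meas_Sy x) hsum, hμ, real_y]
    congr 2
    ext y
    constructor
    · rintro ⟨h3, m, h4, h5⟩
      exact ⟨h3, m, h5, h4⟩
    · rintro ⟨h3, m, h5, h4⟩
      exact ⟨h3, m, h4, h5⟩
  · refine (first_term ((average hom0 summable_om hsum hinf hq).congr fun n => ?_))
    rw [← mean_eq (meas_Sy x) hsum]
    congr 1
    refine integral_congr_ae (Eventually.of_forall fun y => ?_)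
    simp only
    congr 2
    ext m
    exact and_comm

end fixed

theorem laws_plane {x0 x1 y0 y1 : ℝ} (hx0 : 0 < x0) (hx : x0 < x1) (hy : y0 < y1) :
    (∀ ε : ℝ, 0 < ε → ∃ K : ℕ, ∀ k l : ℕ, K ≤ k → k < l →
      |volume.real {z ∈ Set.Ioc x0 x1 ×ˢ Set.Ioc y0 y1 |
          IsGreatest (NS (Real.exp z.1) (Real.exp z.2)) l ∧
          IsGreatest (NS (Real.exp z.1) (Real.exp z.2) \ {l}) k} / (om k * om l) -
        Lc x0 x1 y0 y1| ≤ ε) ∧
    Tendsto (fun k : ℕ => volume.real {z ∈ Set.Ioc x0 x1 ×ˢ Set.Ioc y0 y1 |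
        ∃ p ∈ NS (Real.exp z.1) (Real.exp z.2), ∃ q ∈ NS (Real.exp z.1) (Real.exp z.2),
          k ≤ p ∧ p < q} / (om k * om (k + 1))) atTop
      (𝓝 (Lc x0 x1 y0 y1)) := by
  set μ := (volume : Measure (ℝ × ℝ)).restrict (Bx x0 x1 y0 y1) with hμ
  set S' : ℕ → Set (ℝ × ℝ) := fun k => SS (idx k) with hS'
  have hmeas : ∀ k, MeasurableSet (S' k) := fun k => meas_SS _
  obtain ⟨K, hK, N, htrip⟩ := trip_law (y0 := y0) (y1 := y1) hx0 hx hy
  have hom0 : ∀ p, 0 ≤ om p := fun p => (om_pos p).le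
  have hle : ∀ k, k ≤ idx k := fun k => idx_mono.id_le k
  have hpair' : ∀ ε > 0, ∃ M, ∀ m ≥ M, ∀ n > m,
      |μ.real (S' m ∩ S' n) - Lc x0 x1 y0 y1 * (om m * om n)| ≤ ε * (om m * om n) := by
    intro ε hε
    obtain ⟨M, hM⟩ := pair_law hx0 hx hy ε hε
    exact ⟨M, fun m hm n hn => hM (idx m) (le_trans hm (hle m)) (idx n) (idx_mono hn)⟩
  have htrip' : ∀ m ≥ N, ∀ n > m, ∀ k > m, k ≠ n →
      μ.real (S' m ∩ S' n ∩ S' k) ≤ K * (om m * om n) * om k := by
    intro m hm n hn k hk hkn
    exact htrip (idx m) (le_trans hm (hle m)) (idx n) (idx_mono hn) (idx k) (idx_mono hk)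
      (idx_mono.injective.ne hkn)
  have htwo := two_law (μ := μ) hmeas hom0 summable_om hK hpair' htrip'
  have hfin : ∀ᵐ z ∂μ, {m | z ∈ S' m}.Finite :=
    Pool.Agent.V1193.LE.fin ((summable_SS hx0 hx hy).comp_injective idx_mono.injective)
  have hvol : ∀ A : Set (ℝ × ℝ), μ.real A =
      volume.real {z | z ∈ Set.Ioc x0 x1 ×ˢ Set.Ioc y0 y1 ∧ z ∈ A} := by
    intro A
    rw [hμ, measureReal_restrict_apply' (measurable_Bx _ _ _ _)]
    congr 1
    ext z
    exact and_comm
  have hset : ∀ m n : ℕ, m < n → ∀ z : ℝ × ℝ, z ∈ Two S' m n ↔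
      (IsGreatest (NS (Real.exp z.1) (Real.exp z.2)) n ∧
        IsGreatest (NS (Real.exp z.1) (Real.exp z.2) \ {n}) m) := by
    intro m n hmn z
    constructor
    · rintro ⟨h1, h2, h3⟩
      refine ⟨⟨h2, fun k hk => ?_⟩, ⟨h1, fun h => ?_⟩, fun k hk => ?_⟩
      · rcases le_or_gt m k with h4 | h4
        · rcases h3 k h4 hk with h5 | h5 <;> omega
        · omega
      · exact absurd h (by simpa using hmn.ne)
      · rcases le_or_gt m k with h4 | h4
        · rcases h3 k h4 hk.1 with h5 | h5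
          · omega
          · exact absurd h5 hk.2
        · omega
    · rintro ⟨h1, h2⟩
      refine ⟨h2.1.1, h1.1, fun k hk hyk => ?_⟩
      by_cases hkn : k = n
      · exact Or.inr hkn
      · left
        have := h2.2 (show k ∈ NS (Real.exp z.1) (Real.exp z.2) \ {n} from ⟨hyk, hkn⟩)
        omega
  refine ⟨?_, ?_⟩
  · intro ε hε
    obtain ⟨M, hM⟩ := htwo ε hε
    refine ⟨M, fun m n hm hn => ?_⟩
    have h := hM m hm n hn
    have e : μ.real (Two S' m n) = volume.real {z | z ∈ Set.Ioc x0 x1 ×ˢ Set.Ioc y0 y1 ∧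
        (IsGreatest (NS (Real.exp z.1) (Real.exp z.2)) n ∧
          IsGreatest (NS (Real.exp z.1) (Real.exp z.2) \ {n}) m)} := by
      rw [hvol]
      congr 1
      ext z
      exact and_congr_right fun _ => hset m n hn z
    rw [e] at h
    have hw1 := om_pos m
    have hw2 := om_pos n
    set V := volume.real {z | z ∈ Set.Ioc x0 x1 ×ˢ Set.Ioc y0 y1 ∧
        (IsGreatest (NS (Real.exp z.1) (Real.exp z.2)) n ∧
          IsGreatest (NS (Real.exp z.1) (Real.exp z.2) \ {n}) m)} with hV
    have e2 : V / (om m * om n) - Lc x0 x1 y0 y1 =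
        (V - Lc x0 x1 y0 y1 * (om m * om n)) / (om m * om n) := by
      field_simp
    rw [e2, abs_div, abs_of_pos (show 0 < om m * om n by positivity), div_le_iff₀ (by positivity)]
    exact h
  · have h1 := second (μ := μ) hmeas om_pos summable_om hfin htwo
    have h2 := h1.mul T_vv
    rw [mul_one] at h2
    refine h2.congr fun n => ?_
    have e : μ.real {y | ∃ p q, n ≤ p ∧ p < q ∧ y ∈ S' p ∧ y ∈ S' q} =
        volume.real {z | z ∈ Set.Ioc x0 x1 ×ˢ Set.Ioc y0 y1 ∧
          ∃ p ∈ NS (Real.exp z.1) (Real.exp z.2), ∃ q ∈ NS (Real.exp z.1) (Real.exp z.2),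
            n ≤ p ∧ p < q} := by
      rw [hvol]
      congr 1
      ext z
      refine and_congr_right fun _ => ?_
      constructor
      · rintro ⟨p, q, h1, h2, h3, h4⟩
        exact ⟨p, h3, q, h4, h1, h2⟩
      · rintro ⟨p, h3, q, h4, h1, h2⟩
        exact ⟨p, q, h1, h2, h3, h4⟩
    rw [e]
    have hT : 0 < T (fun m => om m * T om (m + 1)) n :=
      T_pos (fun m => (vv_pos m).le) summable_vv (fun n => ⟨n, le_rfl, vv_pos n⟩) n
    have e3 : T vv n = T (fun m => om m * T om (m + 1)) n := rfl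
    rw [e3]
    have h5 := om_pos n
    have h6 := om_pos (n + 1)
    field_simp

end Pool.Agent.V1193.NN
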